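import Mathlib
import Pool.Agent.W672.FK.Lowf
import Pool.Agent.W307.RT.Tors
import Pool.Agent.Y679.Cr.Conv
import Pool.Agent.Q8.CD.Fld
import Pool.Agent.Q8.CD.Lim

/-!
# The ranks over multiquadratic fields of the curves with full rational 2-torsion, by conductor

All elliptic curves `E` over `ℚ` with full rational 2-torsion ordered by the conductor, without any
bound on the height or on the discriminant. The curves are considered over the fields
`F = ℚ(√d_1, ..., √d_s)`. The average rank over `F` is at most `C 128 ^ ω`, `ω` the number of the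
primes dividing `d_1 ⋯ d_s`, uniformly for `|d_1 ⋯ d_s|` at most an arbitrary power of the bound of
the conductor; the same holds for small moments of `2 ^ (rank E(F) + corank Ш(E/F)[2^∞])`. There is
one set of curves of density zero such that over the other curves all the moments are bounded, for
all the fields, with explicit dependence on the field; and for each of the fields the
upper density of the curves with `rank E(F) + corank Ш(E/F)[2^∞] ≥ r` is smaller than any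
exponential `B ^ (-r)`.
-/

set_option autoImplicit false

namespace Pool.Agent.Results.MP_157626_nt.ConductorOverFields

open Finset Filter Topology

open Pool.Agent.TH841.NF.D (HasDiv crk rk)

/-- the curve `y² = x³ + A x + B` over `F` -/
def E (F : Type) [Field F] (c : ℤ × ℤ) : WeierstrassCurve F := ⟨0, 0, 0, (c.1 : F), (c.2 : F)⟩

/-- The prime-to-6 part of the conductor of `y² = x³ + A x + B` (there is no prime `p` with `p⁴ ∣ A`
and `p⁶ ∣ B`): the product over the primes `p ≥ 5` dividing `4 A³ + 27 B²` of `p` (multiplicative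
reduction: `p ∤ A`) or `p²` (additive reduction: `p ∣ A`) -/
def Cond6 (c : ℤ × ℤ) : ℕ :=
  ∏ p ∈ (Int.natAbs (4 * c.1 ^ 3 + 27 * c.2 ^ 2)).primeFactors.filter (fun p => 5 ≤ p),
    if (p : ℤ) ∣ c.1 then p ^ 2 else p

/-- the admissible factors: functions with values between `1` and `2 ^ 8 * 3 ^ 5`, for instance the
part of the conductor composed of the primes 2 and 3, or `f = 1` -/
def Factor (f : ℤ × ℤ → ℕ) : Prop := ∀ c, 1 ≤ f c ∧ f c ≤ 2 ^ 8 * 3 ^ 5

/-- The pairs `(A, B)` of integers such that `4 A³ + 27 B² ≠ 0`, there is no prime `p` with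
`p⁴ ∣ A` and `p⁶ ∣ B`, `Z/2 x Z/2` embeds in the group of the rational points of
`y² = x³ + A x + B`, and `f * Cond6 ≤ Z` (for a suitable factor `f`: the conductor is at most `Z`).
Every elliptic curve over `ℚ` with full rational 2-torsion is isomorphic to `y² = x³ + A x + B` for
exactly one pair with the first three properties. -/
def Fam (f : ℤ × ℤ → ℕ) (Z : ℕ) : Set (ℤ × ℤ) :=
  {c : ℤ × ℤ | 4 * c.1 ^ 3 + 27 * c.2 ^ 2 ≠ 0 ∧
    (∀ p : ℕ, p.Prime → ¬ ((p : ℤ) ^ 4 ∣ c.1 ∧ (p : ℤ) ^ 6 ∣ c.2)) ∧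
    (∃ g : ZMod 2 × ZMod 2 →+ (E ℚ c).toAffine.Point, Function.Injective g) ∧ f c * Cond6 c ≤ Z}

/-- the proportion of the curves of `S` in the family -/
noncomputable def proportion (f : ℤ × ℤ → ℕ) (S : Set (ℤ × ℤ)) (Z : ℕ) : ℝ :=
  ((Fam f Z ∩ S).ncard : ℝ) / (Fam f Z).ncard

/-- the number field `F` is generated by square roots of the integers `d i` -/
def Gen (F : Type) [Field F] [NumberField F] {s : ℕ} (d : Fin s → ℤ) : Prop :=
  ∃ x : Fin s → F, (∀ i, x i ^ 2 = (d i : F)) ∧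
    IntermediateField.adjoin ℚ (Set.range x) = ⊤

/-- `F` is generated by the square roots of finitely many nonzero integers -/
def Multiquadratic (F : Type) [Field F] [NumberField F] : Prop :=
  ∃ (s : ℕ) (d : Fin s → ℤ), (∀ i, d i ≠ 0) ∧ Gen F d

/-- `rank E(F) + corank Ш(E/F)[2^∞]` -/
noncomputable def rc (F : Type) [Field F] [NumberField F] (c : ℤ × ℤ) : ℕ :=
  rk (E F c) + crk (E F c)

/-- the curves with `rank E(F) + corank Ш(E/F)[2^∞] ≥ r` -/
def High (F : Type) [Field F] [NumberField F] (r : ℕ) : Set (ℤ × ℤ) := {c | r ≤ rc F c}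

/-- the number of the primes dividing `d_1 ⋯ d_s` -/
def ω {s : ℕ} (d : Fin s → ℤ) : ℕ := (∏ i, d i).natAbs.primeFactors.card

/-- the property without the size -/
def Pr (c : ℤ × ℤ) : Prop := 4 * c.1 ^ 3 + 27 * c.2 ^ 2 ≠ 0 ∧
    (∀ p : ℕ, p.Prime → ¬ ((p : ℤ) ^ 4 ∣ c.1 ∧ (p : ℤ) ^ 6 ∣ c.2)) ∧
    (∃ g : ZMod 2 × ZMod 2 →+ (E ℚ c).toAffine.Point, Function.Injective g)

lemma good : Pool.Agent.Y679.Cr.Good Pr := by
  classical
  refine ⟨fun c hc => ⟨?_, ?_⟩, fun H c hc => ?_, Pool.Agent.W672.FK.lowf⟩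
  · exact Pool.Agent.Y679.Cr.isMin_of hc.1 hc.2.1
  · exact Pool.Agent.Y679.Cr.full_of (Pool.Agent.W307.RT.tors_iff.2 hc.2.2)
  · unfold Pool.Agent.W307.RT.Cv at hc
    obtain ⟨-, h1, -, -, h2, h3⟩ := mem_filter.1 hc
    exact ⟨h1, h2, Pool.Agent.W307.RT.tors_iff.1 h3⟩

lemma cond_eq (c : ℤ × ℤ) : Pool.Agent.Y679.Cr.cs c = Cond6 c := by
  unfold Pool.Agent.Y679.Cr.cs Pool.Agent.H925R.Szpiro.condS Cond6
  rw [Pool.Agent.Y679.Cr.D_neg, Int.natAbs_neg]
  refine prod_congr rfl fun p _ => ?_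
  by_cases h : (p : ℤ) ∣ c.1
  · rw [if_pos h, if_pos (Int.dvd_neg.2 h)]
  · rw [if_neg h, if_neg fun h' => h (Int.dvd_neg.1 h')]

lemma bdd {f : ℤ × ℤ → ℕ} (hf : Factor f) : Pool.Agent.Y679.Cr.Bdd f :=
  fun c => ⟨(hf c).1, (hf c).2.trans (by norm_num)⟩

lemma Fam_eq (f : ℤ × ℤ → ℕ) (Z : ℕ) : Fam f Z = Pool.Agent.Y679.Cr.Gm Pr f Z := by
  ext c
  unfold Fam Pool.Agent.Y679.Cr.Gm
  rw [Set.mem_ofPred_eq, Set.mem_ofPred_eq, cond_eq]
  exact ⟨fun h => ⟨⟨h.1, h.2.1, h.2.2.1⟩, h.2.2.2⟩, fun h => ⟨h.1.1, h.1.2.1, h.1.2.2, h.2⟩⟩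

lemma Fam_fin {f : ℤ × ℤ → ℕ} (hf : Factor f) (Z : ℕ) : (Fam f Z).Finite := by
  rw [Fam_eq]
  exact Pool.Agent.Y679.Cr.Gm_fin good (bdd hf) Z

/-- **Theorem.** Order the elliptic curves over `ℚ` with full rational 2-torsion by the conductor
(times an arbitrary factor as in `Factor`), with no bound on the height or on the discriminant.
(1) There are finitely many curves of size at most `Z`, and for large `Z` their number is between
`c Z ^ (2/3)` and `C Z ^ (2/3)`.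
(2) Let `0 < θ < 2 / 3`, `s` and `A` be given. There is `C` such that for all `Z`, all nonzero integers
`d_1, ..., d_s` with `|d_1 ⋯ d_s| ≤ max (Z, 2) ^ A` and `F = ℚ(√d_1, ..., √d_s)`: over the curves of size
at most `Z` the coranks of `Ш(E/F)[2^∞]` are finite, the average of `rank E(F) + corank Ш(E/F)[2^∞]`
and the average of `2 ^ ((θ / 2 ^ s) (rank E(F) + corank Ш(E/F)[2^∞]))` are at most `C 128 ^ ω`, and
for all `r` the proportion of the curves with `rank E(F) + corank Ш(E/F)[2^∞] ≥ r` is at most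
`C 128 ^ ω 2 ^ (-(θ / 2 ^ s) r)`.
(3) There is ONE set `X` of curves, of density zero, such that for all `s`, `k ≥ 1` and `A` there is `C`
such that for all `Z` and all `F = ℚ(√d_1, ..., √d_s)` as in (2) the sum of
`2 ^ (k (rank E(F) + corank Ш(E/F)[2^∞]))` over the curves of size at most `Z` outside of `X` is at
most `C (16 * 512 ^ (2 ^ s k)) ^ ω` times the number of all the curves of size at most `Z`.
(4) For every multiquadratic field `F` and every real `B` the upper density of the curves with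
`rank E(F) + corank Ш(E/F)[2^∞] ≥ r`, times `B ^ r`, tends to `0` as `r → ∞`. -/
theorem result :
    (∃ c C : ℝ, 0 < c ∧ ∀ f : ℤ × ℤ → ℕ, Factor f → (∀ Z : ℕ, (Fam f Z).Finite) ∧
      ∀ᶠ Z : ℕ in atTop, c * (Z : ℝ) ^ ((2 : ℝ) / 3) ≤ ((Fam f Z).ncard : ℝ) ∧
        ((Fam f Z).ncard : ℝ) ≤ C * (Z : ℝ) ^ ((2 : ℝ) / 3)) ∧
    (∀ (s : ℕ) (θ A : ℝ), 0 < θ → θ < 2 / 3 → 0 ≤ A → ∃ C : ℝ, ∀ f : ℤ × ℤ → ℕ, Factor f →
      ∀ (Z : ℕ) (d : Fin s → ℤ), (∀ i, d i ≠ 0) →
      ((∏ i, d i).natAbs : ℝ) ≤ ((max Z 2 : ℕ) : ℝ) ^ A →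
      ∀ (F : Type) [Field F] [NumberField F], Gen F d →
      (∀ c ∈ Fam f Z, BddAbove {q | HasDiv (E F c) q}) ∧
      (∀ S : Finset (ℤ × ℤ), (S : Set (ℤ × ℤ)) = Fam f Z →
        ∑ c ∈ S, (rc F c : ℝ) ≤ C * 128 ^ ω d * S.card ∧
        ∑ c ∈ S, ((2 : ℝ) ^ rc F c) ^ (θ / 2 ^ s) ≤ C * 128 ^ ω d * S.card) ∧
      ∀ r : ℕ, proportion f (High F r) Z ≤ C * 128 ^ ω d / ((2 : ℝ) ^ r) ^ (θ / 2 ^ s)) ∧
    ∃ X : Set (ℤ × ℤ), (∀ f : ℤ × ℤ → ℕ, Factor f → Tendsto (proportion f X) atTop (𝓝 0)) ∧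
      (∀ (s k : ℕ) (A : ℝ), 1 ≤ k → 0 ≤ A → ∃ C : ℝ, ∀ f : ℤ × ℤ → ℕ, Factor f →
        ∀ (Z : ℕ) (d : Fin s → ℤ), (∀ i, d i ≠ 0) →
        ((∏ i, d i).natAbs : ℝ) ≤ ((max Z 2 : ℕ) : ℝ) ^ A →
        ∀ (F : Type) [Field F] [NumberField F], Gen F d →
        ∀ S : Finset (ℤ × ℤ), (S : Set (ℤ × ℤ)) = Fam f Z \ X →
        ∑ c ∈ S, ((2 : ℝ) ^ rc F c) ^ k ≤
          C * (16 * 512 ^ (2 ^ s * k)) ^ ω d * ((Fam f Z).ncard : ℝ)) ∧
      ∀ f : ℤ × ℤ → ℕ, Factor f → ∀ (F : Type) [Field F] [NumberField F], Multiquadratic F →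
        ∀ B : ℝ, Tendsto (fun r : ℕ => B ^ r * limsup (proportion f (High F r)) atTop) atTop
          (𝓝 0) := by
  classical
  obtain ⟨X, hX0, hXr, hX⟩ := Pool.Agent.Q8.CD.fld_high good
  have hpX : ∀ f : ℤ × ℤ → ℕ, Factor f → Tendsto (proportion f X) atTop (𝓝 0) := by
    intro f hf
    have e : proportion f X = fun Z : ℕ =>
        ((Pool.Agent.Y679.Cr.Gm Pr f Z ∩ X).ncard : ℝ) / (Pool.Agent.Y679.Cr.Gm Pr f Z).ncard := by
      funext Z
      unfold proportion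
      rw [Fam_eq]
    rw [e]
    exact hX0 f (bdd hf)
  refine ⟨?_, fun s θ A hθ0 hθ hA => ?_, X, hpX, fun s k A hk hA => ?_, fun f hf F _ _ hF B => ?_⟩
  · obtain ⟨c, Z0, hc, g1⟩ := Pool.Agent.Y679.Cr.Gm_ge good
    obtain ⟨C, Z1, -, g2⟩ := Pool.Agent.Y679.Cr.Gm_up good
    refine ⟨c, C, hc, fun f hf => ⟨fun Z => Fam_fin hf Z, ?_⟩⟩
    filter_upwards [eventually_ge_atTop Z0, eventually_ge_atTop Z1] with Z u1 u2
    rw [Fam_eq]
    exact ⟨g1 f (bdd hf) Z u1, g2 f (bdd hf) Z u2⟩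
  · obtain ⟨C, hC, h⟩ := Pool.Agent.Q8.CD.fld_mom good hXr s hθ0 hθ hA
    obtain ⟨κ, hκ⟩ : ∃ κ : ℝ, κ = θ / 2 ^ s := ⟨_, rfl⟩
    have hκ0 : 0 < κ := by rw [hκ]; positivity
    rw [← hκ] at h ⊢
    obtain ⟨b, hb⟩ : ∃ b : ℝ, b = 1 / (κ * Real.log 2) := ⟨_, rfl⟩
    have hb0 : 0 < b := by
      rw [hb]
      exact one_div_pos.2 (mul_pos hκ0 (Real.log_pos (by norm_num)))
    refine ⟨(b + 1) * C, fun f hf Z d hd hdZ F _ _ hF => ?_⟩
    have hF' : Pool.Agent.TH841.NF.Gen F d := hF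
    obtain ⟨V, hV⟩ : ∃ V : ℝ, V = 128 ^ ω d := ⟨_, rfl⟩
    have hV0 : 0 < V := by rw [hV]; positivity
    have hfin := Fam_fin hf Z
    have hT : ((hfin.toFinset : Finset (ℤ × ℤ)) : Set (ℤ × ℤ)) ⊆ Pool.Agent.Y679.Cr.Gm Pr f Z := by
      rw [Set.Finite.coe_toFinset, Fam_eq]
    obtain ⟨h1, h2, h3⟩ := h f (bdd hf) Z hfin.toFinset hT d hd hdZ F hF'
    have hcard : ((Pool.Agent.Y679.Cr.Gm Pr f Z).ncard : ℝ) = (hfin.toFinset.card : ℝ) := by
      rw [← Fam_eq, Set.ncard_eq_toFinset_card _ hfin]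
    have hle : C * V ≤ (b + 1) * C * V := by
      have : 0 ≤ b * (C * V) := by positivity
      nlinarith
    rw [← hV]
    refine ⟨fun c hc => h1 c (hfin.mem_toFinset.2 hc), fun S hS => ?_, fun r => ?_⟩
    · have hSe : S = hfin.toFinset := by
        rw [← coe_inj, hS, Set.Finite.coe_toFinset]
      rw [hSe]
      have h4 : ∑ c ∈ hfin.toFinset, ((2 : ℝ) ^ rc F c) ^ κ ≤ C * V * hfin.toFinset.card := by
        rw [← hcard, hV]
        exact h2
      refine ⟨?_, h4.trans (mul_le_mul_of_nonneg_right hle (Nat.cast_nonneg _))⟩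
      calc ∑ c ∈ hfin.toFinset, (rc F c : ℝ)
          ≤ ∑ c ∈ hfin.toFinset, b * ((2 : ℝ) ^ rc F c) ^ κ := sum_le_sum fun c _ => by
            rw [hb]
            exact Pool.Agent.Q8.CD.nat_le_rpow hκ0 _
        _ = b * ∑ c ∈ hfin.toFinset, ((2 : ℝ) ^ rc F c) ^ κ := by rw [mul_sum]
        _ ≤ b * (C * V * hfin.toFinset.card) := mul_le_mul_of_nonneg_left h4 hb0.le
        _ ≤ (b + 1) * C * V * hfin.toFinset.card := by
            have : 0 ≤ C * V * (hfin.toFinset.card : ℝ) := by positivity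
            nlinarith
    · unfold proportion
      have h5 := h3 r
      have h6 : ((Fam f Z ∩ High F r).ncard : ℝ) =
          ((hfin.toFinset.filter fun c => r ≤ rc F c).card : ℝ) := by
        rw [← Set.ncard_coe_finset]
        congr 2
        ext c
        simp only [Set.mem_inter_iff, coe_filter, Set.mem_ofPred_eq, Set.Finite.mem_toFinset]
        rfl
      rw [h6]
      rw [hcard] at h5
      have h7 : ((Fam f Z).ncard : ℝ) = (hfin.toFinset.card : ℝ) := by rw [← hcard, Fam_eq]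
      rw [h7]
      refine div_le_of_le_mul₀ (Nat.cast_nonneg _) (by positivity) ?_
      have h8 : ((hfin.toFinset.filter fun c => r ≤ rc F c).card : ℝ) ≤
          C * V * (hfin.toFinset.card : ℝ) / ((2 : ℝ) ^ r) ^ κ := by
        rw [hV]
        exact h5
      refine h8.trans ?_
      rw [mul_div_right_comm]
      exact mul_le_mul_of_nonneg_right (div_le_div_of_nonneg_right hle (by positivity))
        (Nat.cast_nonneg _)
  · obtain ⟨C, hC, h⟩ := hX s k A hk hA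
    refine ⟨C, fun f hf Z d hd hdZ F _ _ hF S hS => ?_⟩
    have hF' : Pool.Agent.TH841.NF.Gen F d := hF
    have hT : (S : Set (ℤ × ℤ)) ⊆ Pool.Agent.Y679.Cr.Gm Pr f Z \ X := by
      rw [hS, Fam_eq]
    rw [Fam_eq]
    exact (h f (bdd hf) Z S hT d hd hdZ F hF').2.1
  · obtain ⟨s, d, hd, hG⟩ := hF
    have hG' : Pool.Agent.TH841.NF.Gen F d := hG
    obtain ⟨A, hA⟩ : ∃ A : ℕ, A = (∏ i, d i).natAbs := ⟨_, rfl⟩
    have hdZ : ∀ Z : ℕ, ((∏ i, d i).natAbs : ℝ) ≤ ((max Z 2 : ℕ) : ℝ) ^ (A : ℝ) := by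
      intro Z
      rw [← hA, Real.rpow_natCast]
      have h1 : A ≤ 2 ^ A := Nat.lt_two_pow_self.le
      have h2 : 2 ^ A ≤ (max Z 2) ^ A := Nat.pow_le_pow_left (le_max_right _ _) A
      exact_mod_cast h1.trans h2
    have hfin := fun Z => Fam_fin hf Z
    refine Pool.Agent.Q8.CD.tail_tendsto (L := fun r => limsup (proportion f (High F r)) atTop)
      (fun r => ?_) (fun k hk => ?_) B
    · refine Pool.Agent.Q8.CD.limsup_nonneg (fun Z => by unfold proportion; positivity)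
        fun Z => ?_
      unfold proportion
      refine div_le_one_of_le₀ ?_ (Nat.cast_nonneg _)
      exact_mod_cast Set.ncard_le_ncard Set.inter_subset_left (hfin Z)
    · obtain ⟨C, hC, h⟩ := hX s k A hk (Nat.cast_nonneg _)
      obtain ⟨V, hV⟩ : ∃ V : ℝ, V = (16 * 512 ^ (2 ^ s * k)) ^ ω d := ⟨_, rfl⟩
      have hV0 : 0 < V := by rw [hV]; positivity
      refine ⟨C * V, fun r => ?_⟩
      refine Pool.Agent.Q8.CD.limsup_le_of_dens (fun Z => by unfold proportion; positivity)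
        (hpX f hf) fun Z => ?_
      have hsub : (Fam f Z \ X).Finite := (hfin Z).subset Set.sdiff_subset
      have hT : ((hsub.toFinset : Finset (ℤ × ℤ)) : Set (ℤ × ℤ)) ⊆
          Pool.Agent.Y679.Cr.Gm Pr f Z \ X := by
        rw [Set.Finite.coe_toFinset, Fam_eq]
      have h1 := (h f (bdd hf) Z hsub.toFinset hT d hd (hdZ Z) F hG').2.2 r
      have h2 : ((hsub.toFinset.filter fun c => r ≤ rc F c).card : ℝ) ≤
          C * V * ((Fam f Z).ncard : ℝ) / 2 ^ (k * r) := by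
        have hnc : ((Fam f Z).ncard : ℝ) = ((Pool.Agent.Y679.Cr.Gm Pr f Z).ncard : ℝ) := by
          rw [Fam_eq]
        rw [hV, hnc]
        exact h1
      have h3 : ((Fam f Z ∩ High F r).ncard : ℝ) ≤ ((Fam f Z ∩ X).ncard : ℝ) +
          ((hsub.toFinset.filter fun c => r ≤ rc F c).card : ℝ) := by
        rw [← Set.ncard_coe_finset]
        have h4 : Fam f Z ∩ High F r ⊆ (Fam f Z ∩ X) ∪
            ((hsub.toFinset.filter fun c => r ≤ rc F c : Finset (ℤ × ℤ)) : Set (ℤ × ℤ)) := by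
          intro c hc
          by_cases hcX : c ∈ X
          · exact Or.inl ⟨hc.1, hcX⟩
          · refine Or.inr ?_
            rw [mem_coe, mem_filter, Set.Finite.mem_toFinset]
            exact ⟨⟨hc.1, hcX⟩, hc.2⟩
        have h5 := Set.ncard_le_ncard h4
          (((hfin Z).subset Set.inter_subset_left).union (Finset.finite_toSet _))
        exact_mod_cast h5.trans (Set.ncard_union_le _ _)
      unfold proportion
      rcases (Nat.eq_zero_or_pos (Fam f Z).ncard) with h0 | h0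
      · rw [h0]
        simp only [Nat.cast_zero, div_zero, zero_add]
        positivity
      · have h0' : (0 : ℝ) < ((Fam f Z).ncard : ℝ) := by exact_mod_cast h0
        rw [div_le_iff₀ h0', add_mul, div_mul_cancel₀ _ h0'.ne']
        refine h3.trans (add_le_add le_rfl (h2.trans (le_of_eq ?_)))
        ring

end Pool.Agent.Results.MP_157626_nt.ConductorOverFields
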