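import Mathlib
import Pool.Agent.TH841.PM.PenZ
import Pool.Agent.TH841.PM.Fin2

/-!
# All the moments of the ranks in twisted one-parameter families with full 2-torsion

`W_t : y² = x (x - D(t) u₀(t)) (x - D(t) u₁(t))`, where `u₀`, `u₁` and `u₂ = u₀ - u₁` are
polynomials with integer coefficients, `u_k` being a constant times a product of `n_k` irreducible
polynomials, these `n₀ + n₁ + n₂` irreducible polynomials being pairwise different, and `D` is any
nonzero polynomial not divisible by one of them. If `2 n_k < n₀ + n₁ + n₂` for `k = 0, 1, 2`, there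
is one set `Z` of integers, of density zero in all intervals `(N, N + M]` with `|N| ≤ M ^ L`, such
that over the integers outside of `Z` all the moments of `2 ^ rank * #Ш[2 ^ j] ^ (1 / j)` are bounded.
So the proportion of the `t` with `rank W_t + corank Ш(W_t)[2^∞] ≥ r` is smaller than any
exponential `A ^ (-r)`, up to the density of `Z`.
-/

set_option autoImplicit false

namespace Pool.Agent.Results.MP_157626_nt.TwistedPencilTails

open Finset Polynomial

open Pool.Agent.TH841.SH.D (Sha ShaTor HasDiv rk)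

/-- the curve `y² = x (x - A) (x - B)` over `ℚ` -/
def E (A B : ℤ) : WeierstrassCurve ℚ := ⟨0, -((A : ℚ) + B), 0, (A : ℚ) * B, 0⟩

/-- `u_k = a_k ∏ f_{k,i}` -/
noncomputable def u {n : Fin 3 → ℕ} (a : Fin 3 → ℤ) (f : ∀ k : Fin 3, Fin (n k) → ℤ[X])
    (k : Fin 3) : ℤ[X] := C (a k) * ∏ i, f k i

/-- the member `y² = x (x - D(t) u₀(t)) (x - D(t) u₁(t))` of the family -/
noncomputable def W {n : Fin 3 → ℕ} (a : Fin 3 → ℤ) (f : ∀ k : Fin 3, Fin (n k) → ℤ[X])
    (D : ℤ[X]) (t : ℤ) : WeierstrassCurve ℚ := E ((D * u a f 0).eval t) ((D * u a f 1).eval t)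

open Classical in
/-- a set of integers of density zero, uniformly in all the intervals `(N, N + M]` with
`|N| ≤ M ^ L`, for every `L` -/
def DensityZero (Z : Set ℤ) : Prop := ∀ (L : ℕ) (ε : ℝ), 0 < ε → ∃ M₀ : ℕ, ∀ (N : ℤ) (M : ℕ),
  M₀ ≤ M → |N| ≤ (M : ℤ) ^ L → (((Ioc N (N + (M : ℤ))).filter (fun t => t ∈ Z)).card : ℝ) ≤ ε * M

open Classical in
/-- **Theorem.** Let `u_k = a_k ∏_{i < n_k} f_{k,i}`, `k = 0, 1, 2`, with `u₀ - u₁ = u₂`, where the
`a_k` are nonzero and the `n₀ + n₁ + n₂` polynomials `f_{k,i}` with integer coefficients are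
irreducible of positive degree and pairwise non-associated; let `D` be a nonzero polynomial with
integer coefficients that is divisible by none of the `f_{k,i}`, and assume that
`2 n_k < n₀ + n₁ + n₂` for all `k`. There is a set `Z` of density zero such that for `t` outside of
`Z` the numbers `(D u_k)(t)` are nonzero and the groups `Ш(W_t)[2 ^ j]` are finite, and for all `s` and
`L` there is `C` such that for `M ≥ 1` and `|N| ≤ M ^ L`: the sum of the `s`-th powers of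
`2 ^ rank(W_t) * #Ш(W_t)[2 ^ j] ^ (1 / j)` over the `t` in `(N, N + M]` outside of `Z` is at most
`C M` for all `j ≥ 1`, and the number of these `t` such that the rank is at least `r` and `Ш(W_t)`
has a subgroup isomorphic to `(ℚ₂ / ℤ₂) ^ q` is at most `C M / 2 ^ (s (r + q))` for all `r`, `q`. -/
theorem result (n : Fin 3 → ℕ) (a : Fin 3 → ℤ) (f : ∀ k : Fin 3, Fin (n k) → ℤ[X]) (D : ℤ[X])
    (ha : ∀ k, a k ≠ 0) (hf : ∀ k i, Irreducible (f k i) ∧ 0 < (f k i).natDegree)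
    (hff : ∀ k i l j, (⟨k, i⟩ : Σ k : Fin 3, Fin (n k)) ≠ ⟨l, j⟩ → ¬ Associated (f k i) (f l j))
    (hu : u a f 0 - u a f 1 = u a f 2) (hD : D ≠ 0) (hDf : ∀ k i, ¬ f k i ∣ D)
    (hn : ∀ k, 2 * n k < n 0 + n 1 + n 2) :
    ∃ Z : Set ℤ, DensityZero Z ∧
      (∀ t, t ∉ Z → (∀ k, (D * u a f k).eval t ≠ 0) ∧ ∀ j : ℕ, Finite (ShaTor (W a f D t) (2 ^ j))) ∧
      ∀ s L : ℕ, ∃ C : ℝ, ∀ (N : ℤ) (M : ℕ), 1 ≤ M → |N| ≤ (M : ℤ) ^ L →
        (∀ j : ℕ, 1 ≤ j → ∑ t ∈ (Ioc N (N + (M : ℤ))).filter (fun t => t ∉ Z),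
          ((2 : ℝ) ^ rk (W a f D t) *
            (Nat.card (ShaTor (W a f D t) (2 ^ j)) : ℝ) ^ ((1 : ℝ) / j)) ^ s ≤ C * M) ∧
        ∀ r q : ℕ, (((Ioc N (N + (M : ℤ))).filter (fun t => t ∉ Z ∧ r ≤ rk (W a f D t) ∧
          HasDiv (W a f D t) q)).card : ℝ) ≤ C * M / 2 ^ (s * (r + q)) := by
  have hirr : Pool.Agent.TH841.PT.Irr (Pool.Agent.TH841.TR.fp f) :=
    ⟨fun x => (hf x.1 x.2).1, fun x => (hf x.1 x.2).2, fun x y hxy => hff x.1 x.2 y.1 y.2 hxy⟩
  obtain ⟨Z, h1, h2, h3⟩ := Pool.Agent.TH841.PM.penZQ Pool.Agent.TH841.PM.tavz a f ha hirr hu D hD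
    hDf hn
  refine ⟨Z, h1, fun t ht => ⟨h2 t ht, fun j => ?_⟩, fun s L => ?_⟩
  · obtain ⟨C, hC⟩ := h3 0 (t.natAbs + 2)
    have hN : |t - 1| ≤ ((2 : ℕ) : ℤ) ^ (t.natAbs + 2) := by
      have h4 : t.natAbs < 2 ^ t.natAbs := Nat.lt_two_pow_self
      have h5 : ((2 : ℕ) : ℤ) ^ (t.natAbs + 2) = 4 * ((2 ^ t.natAbs : ℕ) : ℤ) := by
        push_cast
        ring
      rw [h5, abs_le]
      constructor <;> omega
    obtain ⟨g1, -, -⟩ := hC (t - 1) 2 (by norm_num) hN _ rfl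
    refine g1 t (mem_filter.2 ⟨mem_Ioc.2 ⟨by omega, ?_⟩, ht⟩) j
    push_cast
    omega
  · obtain ⟨C, hC⟩ := h3 s L
    refine ⟨C, fun N M hM hN => ?_⟩
    obtain ⟨-, g2, g3⟩ := hC N M hM hN _ rfl
    refine ⟨g2, fun r q => ?_⟩
    have h4 := g3 r q
    rw [filter_filter] at h4
    exact h4

end Pool.Agent.Results.MP_157626_nt.TwistedPencilTails
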