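import Mathlib
import Pool.Agent.TH841.PT.Fin2

/-!
# All the moments of the ranks of quadratic twists at prime arguments

`E : y² = x³ + A x + B` is an elliptic curve with three integer roots, `D` is an arbitrary nonzero
polynomial with integer coefficients, and `G₁, ..., G_r` are pairwise non-associated irreducible
polynomials of positive degree. For every exponent `s` the sum of the `s`-th powers of
`2 ^ rank * #Ш[2 ^ k] ^ (1 / k)` over the twists of `E` by `D(t)`, where `t` runs through the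
integers with `N < t ≤ N + M` for which all the `|G_i(t)|` are primes, is at most
`C M / (log M) ^ r`, the order of magnitude of the expected number of such `t`. So the ranks of the
twists of `E` by the values `D(p)` at the primes `p` have bounded moments `2 ^ (s * rank)` for
all `s`, and the proportion of the primes with a rank at least `m` decays faster than any
exponential.
-/

set_option autoImplicit false

namespace Pool.Agent.Results.MP_157626_nt.TwistsAtPrimeArguments

open Finset Polynomial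

open Pool.Agent.TH841.SH.D (Sha ShaTor HasDiv rk)

/-- the quadratic twist `y² = x³ + d² A x + d³ B` of `y² = x³ + A x + B` over `ℚ` by `d` -/
def Tw (A B d : ℤ) : WeierstrassCurve ℚ := ⟨0, 0, 0, ((d ^ 2 * A : ℤ) : ℚ), ((d ^ 3 * B : ℤ) : ℚ)⟩

open Classical in
/-- the integers `t` with `N < t ≤ N + M` and `D(t) ≠ 0` for which all the `|G_i(t)|` are primes -/
noncomputable def Par {r : ℕ} (D : ℤ[X]) (G : Fin r → ℤ[X]) (N : ℤ) (M : ℕ) : Finset ℤ :=
  (Ioc N (N + M)).filter (fun t => D.eval t ≠ 0 ∧ ∀ i, ((G i).eval t).natAbs.Prime)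

open Classical in
/-- **Theorem.** Let `y² = (x - e₁) (x - e₂) (x - e₃) = x³ + A x + B` be an elliptic curve with
integers `e₁`, `e₂`, `e₃`, let `D ≠ 0` be a polynomial with integer coefficients and let
`G₁, ..., G_r` be irreducible polynomials with integer coefficients, of positive degree and pairwise
non-associated. Let `W_t` be the quadratic twist of the curve by `D(t)`. For all `s` and `L` there is
`C` such that for all integers `M ≥ 2` and `|N| ≤ M ^ L` and the `t` with `N < t ≤ N + M`,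
`D(t) ≠ 0`, such that all the `|G_i(t)|` are primes: the groups `Ш(W_t)[2 ^ k]` are finite, the sum of
`(2 ^ rank * #Ш(W_t)[2 ^ k] ^ (1 / k)) ^ s` is at most `C M / (log M) ^ r` for all `k ≥ 1`, and at
most `C M / (log M) ^ r / 2 ^ (s (m + q))` of these `t` have a twist `W_t` of rank at least `m` with
a subgroup `(ℚ₂ / ℤ₂) ^ q` in the Tate-Shafarevich group. -/
theorem result (A B e₁ e₂ e₃ : ℤ) (hE : 4 * A ^ 3 + 27 * B ^ 2 ≠ 0)
    (he : ∀ x : ℤ, x ^ 3 + A * x + B = (x - e₁) * (x - e₂) * (x - e₃))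
    (D : ℤ[X]) (hD : D ≠ 0) (r : ℕ) (G : Fin r → ℤ[X])
    (hG : ∀ i, Irreducible (G i) ∧ 0 < (G i).natDegree)
    (hG' : ∀ i j, i ≠ j → ¬ Associated (G i) (G j)) (s L : ℕ) :
    ∃ C : ℝ, ∀ (N : ℤ) (M : ℕ), 2 ≤ M → |N| ≤ (M : ℤ) ^ L →
      (∀ t ∈ Par D G N M, ∀ k : ℕ, Finite (ShaTor (Tw A B (D.eval t)) (2 ^ k))) ∧
      (∀ k : ℕ, 1 ≤ k → ∑ t ∈ Par D G N M, ((2 : ℝ) ^ rk (Tw A B (D.eval t)) *
        (Nat.card (ShaTor (Tw A B (D.eval t)) (2 ^ k)) : ℝ) ^ ((1 : ℝ) / k)) ^ s ≤
          C * (M / (Real.log M) ^ r)) ∧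
      ∀ m q : ℕ, (((Par D G N M).filter (fun t => m ≤ rk (Tw A B (D.eval t)) ∧
        HasDiv (Tw A B (D.eval t)) q)).card : ℝ) ≤
          C * (M / (Real.log M) ^ r) / 2 ^ (s * (m + q)) := by
  have hirrG : Pool.Agent.TH841.PT.Irr G := ⟨fun i => (hG i).1, fun i => (hG i).2, hG'⟩
  obtain ⟨C, hC⟩ := Pool.Agent.TH841.PT.sha_prime Pool.Agent.TH841.PT.avh hirrG hE he D hD s L
  refine ⟨C, fun N M hM hN => ?_⟩
  obtain ⟨h1, h2, h3⟩ := hC N M hM hN
  refine ⟨fun t ht k => h1 t ?_ k, fun k hk => le_trans (le_of_eq ?_) (h2 k hk),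
    fun m q => le_trans (le_of_eq ?_) (h3 m q)⟩
  · unfold Par at ht
    rw [Finset.mem_filter] at ht ⊢
    exact ht
  · refine Finset.sum_congr (by unfold Par; congr 1) fun t _ => rfl
  · refine congrArg _ (congrArg _ ?_)
    unfold Par
    congr 1
    congr 1

end Pool.Agent.Results.MP_157626_nt.TwistsAtPrimeArguments
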