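import Mathlib
import Pool.Agent.W307.RT.Tors
import Pool.Agent.Q17.BF.Diag
import Pool.Agent.Q17.BF.One
import Pool.Agent.Q17.BF.T26d

/-!
# The ranks over all multiquadratic fields of the elliptic curves with torsion group `Z/2 x Z/6`

All elliptic curves over `ℚ` whose group of rational points has a subgroup isomorphic to
`Z/2 x Z/6` are ordered by height. There is one set `Z` of curves of density zero such that for all
the multiquadratic number fields `K` and all `k` the average over the curves `E` outside of `Z` of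
`2 ^ (k (rank E(K) + corank of the 2-primary part of Ш(E / K)))` is bounded. So for every
multiquadratic field `K` the upper density of the curves with `rank E(K) + corank ≥ r` decays faster
than any exponential `B ^ (-r)`.

The Tate-Shafarevich group over a number field is that of `Pool.Agent.TH841.NF.ShaN`: continuous
cocycles of the absolute Galois group with values in the points over the algebraic closure, locally
trivial at all the completions of `K`, modulo the coboundaries.
-/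

set_option autoImplicit false

namespace Pool.Agent.Results.MP_157626_nt.TwoSixOverFields

open Finset Filter Topology

open Pool.Agent.TH841.NF.D (HasDiv crk rk)

/-- the curve `y² = x³ + A x + B` over a field `K` -/
def E (K : Type) [Field K] (A B : ℤ) : WeierstrassCurve K := ⟨0, 0, 0, (A : K), (B : K)⟩

open Classical in
/-- The pairs `(A, B)` of integers such that `4 A³ + 27 B² ≠ 0`, there is no prime `p` with
`p⁴ ∣ A` and `p⁶ ∣ B`, the height `max (4 |A|³) (27 B²)` is at most `H`, and `Z/2 x Z/6` embeds in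
the group of the rational points of `y² = x³ + A x + B`. (The bounds `|A|, |B| ≤ H` follow from the
bound of the height. Every elliptic curve over `ℚ` is isomorphic to `E ℚ A B` for exactly one pair
with the first two properties.) -/
noncomputable def Fam (H : ℕ) : Finset (ℤ × ℤ) :=
  ((Icc (-(H : ℤ)) H) ×ˢ (Icc (-(H : ℤ)) H)).filter (fun c : ℤ × ℤ =>
    4 * c.1 ^ 3 + 27 * c.2 ^ 2 ≠ 0 ∧ 4 * |c.1| ^ 3 ≤ H ∧ 27 * c.2 ^ 2 ≤ H ∧
    (∀ p : ℕ, p.Prime → ¬ ((p : ℤ) ^ 4 ∣ c.1 ∧ (p : ℤ) ^ 6 ∣ c.2)) ∧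
    ∃ f : ZMod 2 × ZMod 6 →+ (E ℚ c.1 c.2).toAffine.Point, Function.Injective f)

/-- the proportion of the curves of `S` among the curves of height at most `H` -/
noncomputable def proportion (S : Set (ℤ × ℤ)) (H : ℕ) : ℝ :=
  (((Fam H : Set (ℤ × ℤ)) ∩ S).ncard : ℝ) / ((Fam H).card : ℝ)

/-- the upper density of a set of curves -/
noncomputable def upperDensity (S : Set (ℤ × ℤ)) : ℝ := limsup (proportion S) atTop

/-- the number field `K` is generated by square roots of the integers `d i` -/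
def Gen (K : Type) [Field K] [NumberField K] {s : ℕ} (d : Fin s → ℤ) : Prop :=
  ∃ x : Fin s → K, (∀ i, x i ^ 2 = (d i : K)) ∧
    IntermediateField.adjoin ℚ (Set.range x) = ⊤

/-! ### Proofs -/

open Pool.Agent.W307.SE (Sel)
open Pool.Agent.TH344.GT (EXC)
open Pool.Agent.Q17.BF (PS S6)
open Pool.Agent.W135.RT (FF)
open Pool.Agent.W307.RT (M6 N6)

lemma Fam_eq : Fam = Pool.Agent.W307.RT.Cv 6 := by
  classical
  funext H
  unfold Fam Pool.Agent.W307.RT.Cv
  apply filter_congr
  intro c _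
  have h : Pool.Agent.W307.RT.HasT 6 (Pool.Agent.W307.RT.Sh c.1 c.2) ↔
      ∃ f : ZMod 2 × ZMod 6 →+ (E ℚ c.1 c.2).toAffine.Point, Function.Injective f :=
    Pool.Agent.W307.RT.tors_iff
  rw [h]

/-- the parameters of a curve -/
noncomputable def pM (c : ℤ × ℤ) : ℤ := -(M6 (FF c).1 (FF c).2)

/-- the parameters of a curve -/
noncomputable def pN (c : ℤ × ℤ) : ℤ := -(N6 (FF c).1 (FF c).2)

/-- one curve -/
lemma one {H : ℕ} {c : ℤ × ℤ} (hc : c ∈ Fam H) {K : Type} [Field K] [NumberField K] {s : ℕ}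
    {d : Fin s → ℤ} (hK : Gen K d) (hd : ∀ i, d i ≠ 0) {q : ℕ} (hq : HasDiv (E K c.1 c.2) q) :
    (2 : ℝ) ^ (rk (E K c.1 c.2) + q) ≤ (PS d (pM c) (pN c) : ℕ) := by
  rw [Fam_eq] at hc
  obtain ⟨h1, h2, h3, h4, e1, e2, e3, w, hw, hr, h5, h6⟩ := Pool.Agent.Q17.BF.roots6d hc
  exact Pool.Agent.Q17.BF.one_curve hK hd hw h1 hr h5 h6 h2 h3 h4 hq

open Classical in
/-- **Theorem.** The number of the elliptic curves over `ℚ` of height at most `H` with a subgroup
`Z/2 x Z/6` tends to infinity with `H`. There is a set `Z` of these curves of density zero such that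
for all the number fields `K = ℚ(√d_1, ..., √d_s)` and all `k` there is `C` such that for all `H` the
coranks of the 2-primary parts of the groups `Ш(E / K)`, `E` a curve of height at most `H`, are
finite, the sum of `(2 ^ (rank E(K) + corank Ш(E / K)[2^∞])) ^ k` over the curves of height at most
`H` outside of `Z` is at most `C` times the number of the curves of height at most `H`, and at most
`C / 2 ^ (k r)` times this number of the curves outside of `Z` have
`rank E(K) + corank Ш(E / K)[2^∞] ≥ r`. For all these fields and all `B` the upper density of the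
curves with `rank E(K) + corank Ш(E / K)[2^∞] ≥ r`, times `B ^ r`, tends to zero for `r → ∞`. -/
theorem result :
    Tendsto (fun H : ℕ => (Fam H).card) atTop atTop ∧
    (∃ Z : Set (ℤ × ℤ), Tendsto (proportion Z) atTop (𝓝 0) ∧
      ∀ (s : ℕ) (d : Fin s → ℤ), (∀ i, d i ≠ 0) → ∀ k : ℕ, ∃ C : ℝ,
      ∀ (K : Type) [Field K] [NumberField K], Gen K d → ∀ H : ℕ,
        (∀ c ∈ Fam H, BddAbove {q | HasDiv (E K c.1 c.2) q}) ∧
        ∑ c ∈ (Fam H).filter (fun c => c ∉ Z),
          ((2 : ℝ) ^ (rk (E K c.1 c.2) + crk (E K c.1 c.2))) ^ k ≤ C * (Fam H).card ∧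
        ∀ r : ℕ, (((Fam H).filter (fun c => c ∉ Z ∧
          r ≤ rk (E K c.1 c.2) + crk (E K c.1 c.2))).card : ℝ) ≤
            C * (Fam H).card / 2 ^ (k * r)) ∧
    ∀ (s : ℕ) (d : Fin s → ℤ), (∀ i, d i ≠ 0) → ∀ (K : Type) [Field K] [NumberField K], Gen K d →
      ∀ B : ℝ, Tendsto (fun r : ℕ => B ^ r *
        upperDensity {c | r ≤ rk (E K c.1 c.2) + crk (E K c.1 c.2)}) atTop (𝓝 0) := by
  have : Nonempty {d : ℤ // d ≠ 0} := ⟨⟨1, one_ne_zero⟩⟩
  have hmono : Monotone Fam := by
    rw [Fam_eq]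
    exact Pool.Agent.TH344.GT.Cv_mono' 6
  obtain ⟨Z, hZ1, hZ2⟩ := Pool.Agent.Q17.BF.exc_all Fam hmono
    (fun (d : {d : ℤ // d ≠ 0}) c => S6 d.1 c) (fun d => by
      rw [Fam_eq]
      exact Pool.Agent.Q17.BF.exc6d d.2)
  have hPS : ∀ (s : ℕ) (d : Fin s → ℤ), (∀ i, d i ≠ 0) → ∀ k : ℕ, ∃ C : ℝ, ∀ H,
      ∑ c ∈ (Fam H).filter (fun c => c ∉ Z), ((PS d (pM c) (pN c) : ℕ) : ℝ) ^ k ≤
        C * (Fam H).card := by
    intro s d hd k
    refine Pool.Agent.Q17.BF.exc_PS Fam d pM pN Z (fun T k => ?_) k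
    have h := hZ2 ⟨∏ i ∈ T, d i, prod_ne_zero_iff.2 fun i _ => hd i⟩ k
    simp only [S6] at h
    exact h
  refine ⟨?_, ⟨Z, Pool.Agent.TH344.GT.tendsto_of_eps Fam ?_, ?_⟩, ?_⟩
  · rw [Fam_eq]
    exact Pool.Agent.W307.RT.tendsto_of_low Pool.Agent.W376.RTL.low6
  · intro ε hε
    obtain ⟨X0, h⟩ := hZ1 ε hε
    exact ⟨X0, h⟩
  · intro s d hd k
    obtain ⟨C, hC⟩ := hPS s d hd k
    refine ⟨C, fun K _ _ hK H => ?_⟩
    have h := Pool.Agent.TH841.NF.famN ((Fam H).filter (fun c => c ∉ Z)) (fun _ => K)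
      (fun c => E K c.1 c.2) (fun c => ((PS d (pM c) (pN c) : ℕ) : ℝ)) k _
      (fun c hc q hq => one (mem_filter.1 hc).1 hK hd hq) (hC H)
    refine ⟨fun c hc => Pool.Agent.TH841.NF.bdd_of fun q hq => one hc hK hd hq, h.2.1,
      fun r => ?_⟩
    have h1 := h.2.2 r
    rw [filter_filter] at h1
    exact h1
  · intro s d hd K _ _ hK B
    have hexc : EXC Fam (fun c => PS d (pM c) (pN c)) := by
      refine ⟨Z, fun ε hε => ?_, fun k => ?_⟩
      · obtain ⟨X0, h⟩ := hZ1 ε hε
        exact ⟨X0, fun X hX => le_trans (le_of_eq (by congr)) (h X hX)⟩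
      · obtain ⟨C, hC⟩ := hPS s d hd k
        exact ⟨C, fun X => le_trans (le_of_eq (by congr)) (hC X)⟩
    refine Pool.Agent.TH344.GT.tail Fam hexc 1
      (S := fun r => {c | r ≤ rk (E K c.1 c.2) + crk (E K c.1 c.2)}) (fun r H c hc hr => ?_) B
    rw [pow_one]
    have h1 := one hc hK hd (Pool.Agent.TH841.NF.crk_mem
      (Pool.Agent.TH841.NF.bdd_of fun q hq => one hc hK hd hq))
    have h2 : 2 ^ (rk (E K c.1 c.2) + crk (E K c.1 c.2)) ≤ PS d (pM c) (pN c) := by
      exact_mod_cast h1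
    exact (Nat.pow_le_pow_right (by norm_num) hr).trans h2

end Pool.Agent.Results.MP_157626_nt.TwoSixOverFields
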